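import Pool.Agent.Work.MP_749b09_gt.Main

/-!
For every `b` there are a ribbon knot `J` and a knot `K`, obtained from `J` by `b + 1` generalized
positive crossing changes on four strands, such that `K` is not obtained by changing negative
crossings to positive crossings from any knot which bounds in the 4-ball a surface of Euler
characteristic 1 with at most `b` local maxima of the distance from the centre.
-/

namespace Pool.Agent.Results.MP_749b09_gt.RibbonCase

open Pool.Agent.Work.MP_749b09_gt

theorem result : ∀ b : ℕ, ∃ J K : ℕ × Word,
    IsKnot J ∧ IsKnot K ∧ Bounds 0 1 J ∧ GenPos (b + 1) J K ∧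
      ∀ (m : ℕ) (J' : ℕ × Word), m ≤ b → Bounds m 1 J' → ¬ NegToPos J' K :=
  main

end Pool.Agent.Results.MP_749b09_gt.RibbonCase
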